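import Pool.Agent.Y667.QKE.Stm
import Pool.Agent.Y858.QK.ROOT

/-!
# The local root number at the primes over `τ` is one (job QKE-TAU, project QK of helper667)
-/

set_option autoImplicit false

namespace Pool.Agent.Y67.QKE

open NumberField Ideal Pool.Agent.Y667.PA Pool.Agent.Y667.OG Pool.Agent.Y285.RP
  Pool.Agent.Y667.QK Pool.Agent.Y667.QK.EV

section

variable {K : Type} [Field K] [NumberField K]

/-- an element of even valuation at `P` is a unit at `P` times a square -/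
theorem even_split (P : Ideal (𝓞 K)) (h1 : P.IsPrime) (h2 : P ≠ ⊥) {t : 𝓞 K} {j : ℕ}
    (ht : t ∈ P ^ (2 * j)) (ht' : t ∉ P ^ (2 * j + 1)) :
    ∃ (D : 𝓞 K) (u : K), D ∉ P ∧ u ≠ 0 ∧ (t : K) = (D : K) * u ^ 2 := by
  obtain ⟨π, hπ1, hπ2⟩ := Ideal.exists_mem_pow_notMem_pow_succ P h2 h1.ne_top 1
  rw [pow_one] at hπ1
  obtain ⟨J, hJ⟩ : P ∣ span {π} := by
    rw [dvd_iff_le, span_singleton_le_iff_mem]
    exact hπ1
  have hJP : ¬ J ≤ P := by
    intro h
    apply hπ2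
    have h3 : span {π} ≤ P ^ (1 + 1) := by
      rw [hJ, pow_succ, pow_one]
      exact Ideal.mul_mono_right h
    exact h3 (mem_span_singleton_self π)
  obtain ⟨c, hc1, hc2⟩ := SetLike.not_le_iff_exists.1 hJP
  have hb : c ^ (2 * j) ∉ P := fun h => hc2 (h1.mem_of_pow_mem _ h)
  have h3 : t * c ^ (2 * j) ∈ span {π ^ (2 * j)} := by
    rw [← Ideal.span_singleton_pow, hJ, mul_pow]
    exact Ideal.mul_mem_mul ht (Ideal.pow_mem_pow hc1 _)
  obtain ⟨a, ha⟩ := mem_span_singleton'.1 h3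
  have haP : a ∉ P := by
    intro h
    have h4 : c ^ (2 * j) * t ∈ P ^ (2 * j + 1) := by
      have e : c ^ (2 * j) * t = a * π ^ (2 * j) := by rw [ha]; ring
      rw [e, pow_succ, mul_comm (P ^ (2 * j)) P]
      exact Ideal.mul_mem_mul h (Ideal.pow_mem_pow hπ1 _)
    rcases h1.mul_mem_pow P h4 with h5 | h5
    · exact hb h5
    · exact ht' h5
  have hπ0 : π ≠ 0 := by
    rintro rfl
    exact hπ2 (zero_mem _)
  have hc0 : c ≠ 0 := by
    rintro rfl
    exact hc2 (zero_mem _)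
  have hinj : Function.Injective (algebraMap (𝓞 K) K) := FaithfulSMul.algebraMap_injective _ _
  have hπK : (algebraMap (𝓞 K) K π) ≠ 0 := fun h => hπ0 (hinj (h.trans (map_zero _).symm))
  have hcK : (algebraMap (𝓞 K) K c) ≠ 0 := fun h => hc0 (hinj (h.trans (map_zero _).symm))
  refine ⟨a * c ^ (2 * j), (algebraMap (𝓞 K) K π) ^ j / (algebraMap (𝓞 K) K c) ^ (2 * j),
    ?_, ?_, ?_⟩
  · intro h
    rcases h1.mem_or_mem h with h | h
    · exact haP h
    · exact hb h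
  · exact div_ne_zero (pow_ne_zero _ hπK) (pow_ne_zero _ hcK)
  · have h5 := congrArg (algebraMap (𝓞 K) K) ha
    simp only [map_mul, map_pow] at h5
    change algebraMap (𝓞 K) K t = algebraMap (𝓞 K) K (a * c ^ (2 * j)) * _
    simp only [map_mul, map_pow]
    rw [div_pow, ← pow_mul, mul_comm j 2]
    have h6 : (algebraMap (𝓞 K) K c) ^ (2 * j) ≠ 0 := pow_ne_zero _ hcK
    rw [mul_div_assoc', eq_div_iff (pow_ne_zero 2 h6)]
    linear_combination (-(algebraMap (𝓞 K) K c) ^ (2 * j)) * h5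

theorem isSquare_neg_one (P : Ideal (𝓞 K)) (h1 : P.IsPrime) (h2 : P ≠ ⊥)
    (h8 : below P % 8 = 1) : IsSquare (-1 : 𝓞 K ⧸ P) := by
  have hp := below_prime P h1 h2
  have : Fact (below P).Prime := ⟨hp⟩
  have : CharP (𝓞 K ⧸ P) (below P) := charP_quot P
  have h3 : IsSquare (-1 : ZMod (below P)) := ZMod.exists_sq_eq_neg_one_iff.2 (by omega)
  have h4 := h3.map (ZMod.castHom (dvd_refl (below P)) (𝓞 K ⧸ P))
  rwa [map_neg, map_one] at h4

omit [NumberField K] in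
theorem disc_twist (V : WeierstrassCurve (𝓞 K)) (D : 𝓞 K) :
    (⟨0, D * V.b₂, 0, 8 * D ^ 2 * V.b₄, 16 * D ^ 3 * V.b₆⟩ : WeierstrassCurve (𝓞 K)).Δ =
      2 ^ 12 * D ^ 6 * V.Δ := by
  simp only [WeierstrassCurve.Δ, WeierstrassCurve.b₂, WeierstrassCurve.b₄, WeierstrassCurve.b₆,
    WeierstrassCurve.b₈]
  ring

end

theorem TAU : St_TAU := by
  intro τ s hA h hcop k hk K _ _ P h1 h2 hPτ
  classical
  have hb : (s 1 : ℤ) % 4 = 1 := by have := h.m1; omega
  have hp := below_prime P h1 h2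
  have hq8 : below P % 8 = 1 := hA.m8 _ (Nat.mem_primeFactors.2 ⟨hp, hPτ, hA.sqf.ne_zero⟩)
  have hq2 : ¬ below P ∣ 2 := by
    intro h4
    have h5 := (Nat.prime_dvd_prime_iff_eq hp Nat.prime_two).1 h4
    omega
  have h2P : (2 : 𝓞 K) ∉ P := by
    intro h3
    have h4 : ((2 : ℤ) : 𝓞 K) ∈ P := by exact_mod_cast h3
    rw [mem_iff] at h4
    exact hq2 (by exact_mod_cast h4)
  obtain ⟨V, hV⟩ : ∃ V : WeierstrassCurve ℤ, V = Vm (s 1) (s 2) := ⟨_, rfl⟩
  obtain ⟨VK, hVK⟩ : ∃ VK : WeierstrassCurve (𝓞 K), VK = V.map (Int.castRingHom (𝓞 K)) :=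
    ⟨_, rfl⟩
  have hΔ : VK.Δ ∉ P := by
    rw [hVK, WeierstrassCurve.map_Δ, int_mem]
    intro h3
    have h4 : below P ∣ V.Δ.natAbs := Int.natCast_dvd.1 h3
    rw [hV, h.disc] at h4
    rcases hp.dvd_mul.1 h4 with h5 | h5
    · exact hq2 (hp.dvd_of_dvd_pow (show below P ∣ 2 ^ 2 by norm_num; exact h5))
    · have h7 := Nat.dvd_gcd hPτ (hp.dvd_of_dvd_pow h5)
      rw [hcop] at h7
      exact hp.one_lt.ne' (Nat.dvd_one.1 h7)
  have htw := cc_twist (b := s 1) (c := s 2) (k := k) hb (by rw [← h.a_eq]; exact hk) τ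
  rw [← h.a_eq, ← hV] at htw
  obtain ⟨C, hC⟩ : ∃ C : WeierstrassCurve.VariableChange K,
      C • ((⟨0, 0, 0, ((cc ((τ : ℤ) * s 0) ((τ : ℤ) * s 1) ((τ : ℤ) * k)).1 : ℚ),
      ((cc ((τ : ℤ) * s 0) ((τ : ℤ) * s 1) ((τ : ℤ) * k)).2 : ℚ)⟩ : WeierstrassCurve ℚ).map
        (algebraMap ℚ K)) = twistK VK (τ : 𝓞 K) := by
    refine ⟨(⟨1, (τ : ℚ) * ((s 1 : ℤ) - k), 0, 0⟩ :
      WeierstrassCurve.VariableChange ℚ).map (algebraMap ℚ K), ?_⟩
    rw [WeierstrassCurve.map_variableChange, htw, hVK]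
    unfold twist twistK
    ext
    · simp
    · simp
    · simp
    · simp
    · simp
  obtain ⟨hn1, hn2⟩ := pow_mem P h1 h2 hA.sqf hPτ
  rcases Nat.even_or_odd (P.ramificationIdx ℤ) with ⟨j, hj⟩ | ho
  · rw [hj, ← two_mul] at hn1 hn2
    obtain ⟨D, u, hD, hu, htu⟩ := even_split P h1 h2 hn1 hn2
    refine Or.inl ⟨⟨0, D * VK.b₂, 0, 8 * D ^ 2 * VK.b₄, 16 * D ^ 3 * VK.b₆⟩,
      ⟨⟨Units.mk0 u hu, 0, 0, 0⟩ * C, ?_⟩, ?_, rfl⟩
    · rw [mul_smul, hC]
      unfold twistK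
      rw [htu, WeierstrassCurve.variableChange_def]
      ext
      · simp
      · simp
        field_simp
      · simp
      · simp
        field_simp
        rw [map_ofNat]
        ring
      · simp
        field_simp
        rw [map_ofNat]
        ring
    · intro hcon
      rw [disc_twist] at hcon
      rcases h1.mem_or_mem hcon with h5 | h5
      · rcases h1.mem_or_mem h5 with h6 | h6
        · exact h2P (h1.mem_of_pow_mem _ h6)
        · exact hD (h1.mem_of_pow_mem _ h6)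
      · exact hΔ h5
  · refine Or.inr (Or.inr ⟨h2P, VK, (τ : 𝓞 K), P.ramificationIdx ℤ, ho, hn1, hn2, ⟨C, hC⟩,
      hΔ, ?_⟩)
    rw [if_pos (isSquare_neg_one P h1 h2 hq8)]

end Pool.Agent.Y67.QKE
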